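import Pool.Agent.Q283.GM.SQ
import Pool.Agent.Q283.GM.ASY
import Pool.Agent.Q274.BKC.Stm2

/-!
# BKC-21 (LAW): the joint law of the coranks of the twists
-/

set_option autoImplicit false
set_option linter.unusedVariables false

open scoped Classical

namespace Pool.Agent.Q225.BKC

open Finset Filter
open Pool.Agent.Q274.BKC
open Q283.GM (RC Fam Kr rk mem_Kr HM hm_cls sep OkU GdR cR t_DEN)

/-- the active classes -/
noncomputable def cA (q : ℕ) : Finset ℕ :=
  (range (8 * q)).filter fun a => a % 8 = 1 ∧ a.Coprime q ∧ IsSquare (a : ZMod q)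

/-- the passive classes -/
noncomputable def cB (q : ℕ) : Finset ℕ :=
  (range (8 * q)).filter fun a => a % 8 = 1 ∧ a.Coprime q ∧ ¬ IsSquare (a : ZMod q)

theorem cop8 {a q : ℕ} (h1 : a % 8 = 1) (h2 : a.Coprime q) : a.Coprime (8 * q) := by
  refine Nat.Coprime.mul_right ?_ h2
  unfold Nat.Coprime
  rw [Nat.gcd_comm, Nat.gcd_rec, h1]
  norm_num

theorem mem_cA {q a : ℕ} : a ∈ cA q ↔ a < 8 * q ∧ a % 8 = 1 ∧ a.Coprime q ∧
    IsSquare (a : ZMod q) := by
  unfold cA
  rw [Finset.mem_filter, Finset.mem_range]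

theorem mem_cB {q a : ℕ} : a ∈ cB q ↔ a < 8 * q ∧ a % 8 = 1 ∧ a.Coprime q ∧
    ¬ IsSquare (a : ZMod q) := by
  unfold cB
  rw [Finset.mem_filter, Finset.mem_range]

/-- the family -/
noncomputable def rho (q : ℕ) (hq : q.Prime) (h7 : q % 8 = 7) : RC where
  m := 8 * q
  𝒜 := cA q
  ℬ := cB q
  h4 := ⟨2 * q, by ring⟩
  pos := Nat.mul_pos (by norm_num) hq.pos
  hA := by
    intro a ha
    obtain ⟨h1, h2, h3, h4⟩ := Finset.mem_filter.1 ha
    exact ⟨mem_range.1 h1, cop8 h2 h3, by omega⟩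
  h1 := by
    refine Finset.mem_filter.2 ⟨mem_range.2 ?_, by norm_num, Nat.coprime_one_left q, ?_⟩
    · have := hq.pos; omega
    · rw [Nat.cast_one]; exact IsSquare.one
  hB := by
    intro a ha
    obtain ⟨h1, h2, h3, h4⟩ := Finset.mem_filter.1 ha
    exact ⟨mem_range.1 h1, cop8 h2 h3⟩
  hBn := by
    have : Fact q.Prime := ⟨hq⟩
    have h2 : q ≠ 2 := by rintro rfl; norm_num at h7
    obtain ⟨n, hn⟩ := FiniteField.exists_nonsquare (F := ZMod q) (by
      rw [ZMod.ringChar_zmod_n]; exact h2)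
    have hc : Nat.Coprime 8 q := by
      have : Nat.Coprime (2 ^ 3) q :=
        Nat.Coprime.pow_left 3 ((Nat.coprime_primes Nat.prime_two hq).2 (Ne.symm h2))
      exact this
    obtain ⟨b, hb1, hb2⟩ := Nat.chineseRemainder hc 1 n.val
    have hlt : b % (8 * q) < 8 * q := Nat.mod_lt _ (Nat.mul_pos (by norm_num) hq.pos)
    have e1 : (b % (8 * q)) % 8 = 1 := by
      rw [Nat.mod_mod_of_dvd b (Dvd.intro q rfl)]
      exact hb1
    have e2 : ((b % (8 * q) : ℕ) : ZMod q) = n := by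
      rw [← ZMod.natCast_zmod_val n, ZMod.natCast_eq_natCast_iff]
      refine Nat.ModEq.trans ?_ hb2
      exact Nat.mod_mod_of_dvd b (Dvd.intro_left 8 rfl)
    refine ⟨b % (8 * q), mem_cB.2 ⟨hlt, e1, ?_, ?_⟩⟩
    · rw [Nat.coprime_comm, hq.coprime_iff_not_dvd]
      intro h
      apply hn
      rw [← e2, (ZMod.natCast_eq_zero_iff _ _).2 h]
      exact ⟨0, by simp⟩
    · rw [e2]; exact hn
  dis := by
    rw [Finset.disjoint_left]
    intro a ha hb
    exact (Finset.mem_filter.1 hb).2.2.2 (Finset.mem_filter.1 ha).2.2.2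

section
variable {q : ℕ} (hq : q.Prime) (h7 : q % 8 = 7)

theorem res_mod {p : ℕ} : (p % (8 * q)) % 8 = p % 8 ∧ ((p % (8 * q)).Coprime q ↔ p.Coprime q) ∧
    (((p % (8 * q) : ℕ) : ZMod q) = (p : ZMod q)) := by
  have e2 : (p % (8 * q)) % q = p % q := Nat.mod_mod_of_dvd p (Dvd.intro_left 8 rfl)
  refine ⟨Nat.mod_mod_of_dvd p (Dvd.intro q rfl), ?_, ?_⟩
  · unfold Nat.Coprime
    rw [Nat.gcd_comm, Nat.gcd_rec, e2, ← Nat.gcd_rec, Nat.gcd_comm]
  · rw [ZMod.natCast_eq_natCast_iff]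
    exact e2

theorem A_iff (p : ℕ) : (rho q hq h7).Φ.A p ↔ p.Prime ∧ p % 8 = 1 ∧ p ≠ q ∧
    IsSquare (-(q : ZMod p)) := by
  have : Fact q.Prime := ⟨hq⟩
  have h2 : q ≠ 2 := by rintro rfl; norm_num at h7
  obtain ⟨e1, e2, e3⟩ := res_mod (q := q) (p := p)
  have e : (rho q hq h7).Φ.A p ↔ p.Prime ∧ p % (8 * q) ∈ cA q := Iff.rfl
  rw [e]
  refine and_congr_right fun hp => ?_
  have : Fact p.Prime := ⟨hp⟩
  rw [mem_cA, e1, e2, e3]
  constructor
  · rintro ⟨-, g1, g2, g3⟩
    refine ⟨g1, ?_, ?_⟩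
    · rintro rfl; omega
    · have : -(q : ZMod p) = (-1) * q := by ring
      rw [this]
      refine IsSquare.mul ?_ ?_
      · rw [ZMod.exists_sq_eq_neg_one_iff]; omega
      · rw [ZMod.exists_sq_eq_prime_iff_of_mod_four_eq_one (by omega) h2]
        exact g3
  · rintro ⟨g1, g2, g3⟩
    refine ⟨Nat.mod_lt _ (Nat.mul_pos (by norm_num) hq.pos), g1,
      (Nat.coprime_primes hp hq).2 g2, ?_⟩
    rw [← ZMod.exists_sq_eq_prime_iff_of_mod_four_eq_one (by omega) h2]
    have : (q : ZMod p) = (-1) * (-(q : ZMod p)) := by ring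
    rw [this]
    refine IsSquare.mul ?_ g3
    rw [ZMod.exists_sq_eq_neg_one_iff]; omega

theorem P_iff (p : ℕ) : (rho q hq h7).Φ.P p ↔ p.Prime ∧ p % 8 = 1 ∧ p ≠ q := by
  rw [RC.P_iff]
  obtain ⟨e1, e2, e3⟩ := res_mod (q := q) (p := p)
  refine and_congr_right fun hp => ?_
  show p % (8 * q) ∈ cA q ∪ cB q ↔ _
  unfold cA cB
  rw [mem_union, mem_filter, mem_filter, e1, e2, mem_range, Nat.coprime_primes hp hq]
  have hlt : p % (8 * q) < 8 * q := Nat.mod_lt _ (Nat.mul_pos (by norm_num) hq.pos)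
  tauto

end

theorem hm_mono {w w' : ℕ → Prop} (h : ∀ p : ℕ, p.Prime → w p → w' p) (hw : HM w) : HM w' := by
  obtain ⟨θ, C, hθ, hC⟩ := hw
  refine ⟨θ, C, hθ, fun y hy => (hC y hy).trans ?_⟩
  refine Finset.sum_le_sum_of_subset_of_nonneg ?_ fun p _ _ => by positivity
  intro p hp
  rw [mem_filter] at hp ⊢
  exact ⟨hp.1, hp.2.1, h p hp.2.1 hp.2.2⟩

theorem hm_sep {q : ℕ} (hq : q.Prime) (h7 : q % 8 = 7) {e : Finset ℕ} (hne : e.Nonempty)
    (he : ∀ r ∈ e, r.Prime ∧ r ≠ 2 ∧ r ≠ q) :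
    HM fun p => (rho q hq h7).Φ.A p ∧ ∑ r ∈ e, Pool.Agent.Y703.CQ.nr p r ≠ 0 := by
  obtain ⟨r0, hr0⟩ := hne
  obtain ⟨hp0, h20, hq0⟩ := he r0 hr0
  have : Fact r0.Prime := ⟨hp0⟩
  have hq2 : q ≠ 2 := by rintro rfl; norm_num at h7
  obtain ⟨n, hn⟩ := FiniteField.exists_nonsquare (F := ZMod r0) (by
      rw [ZMod.ringChar_zmod_n]; exact h20)
  set m1 : ℕ := 8 * q * ∏ r ∈ e.erase r0, r with hm1
  have hm1pos : 0 < m1 := by
    refine Nat.mul_pos (Nat.mul_pos (by norm_num) hq.pos) ?_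
    exact Finset.prod_pos fun r hr => (he r (Finset.mem_of_mem_erase hr)).1.pos
  have hc : Nat.Coprime m1 r0 := by
    refine Nat.Coprime.mul_left (Nat.Coprime.mul_left ?_ ?_) ?_
    · have : Nat.Coprime (2 ^ 3) r0 :=
        Nat.Coprime.pow_left 3 ((Nat.coprime_primes Nat.prime_two hp0).2 (Ne.symm h20))
      exact this
    · exact (Nat.coprime_primes hq hp0).2 (Ne.symm hq0)
    · refine Nat.Coprime.prod_left fun r hr => ?_
      exact (Nat.coprime_primes (he r (Finset.mem_of_mem_erase hr)).1 hp0).2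
        (Finset.ne_of_mem_erase hr)
  obtain ⟨b, hb1, hb2⟩ := Nat.chineseRemainder hc 1 n.val
  set m' : ℕ := m1 * r0 with hm'
  have hmpos : 0 < m' := Nat.mul_pos hm1pos hp0.pos
  have hbn : (b : ZMod r0) = n := by
    rw [← ZMod.natCast_zmod_val n, ZMod.natCast_eq_natCast_iff]
    exact hb2
  have hcb : b.Coprime m' := by
    refine Nat.Coprime.mul_right ?_ ?_
    · have := hb1.gcd_eq
      unfold Nat.Coprime
      rw [this]
      simp
    · rw [Nat.coprime_comm, hp0.coprime_iff_not_dvd]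
      intro h
      apply hn
      rw [← hbn, (ZMod.natCast_eq_zero_iff _ _).2 h]
      exact ⟨0, by simp⟩
  have hcb' : (b % m').Coprime m' := by
    unfold Nat.Coprime at hcb ⊢
    rw [← Nat.gcd_rec, Nat.gcd_comm]
    exact hcb
  have h := hm_cls hmpos {b % m'} (by
    intro a ha
    rw [Finset.mem_singleton] at ha
    rw [ha]
    exact ⟨Nat.mod_lt _ hmpos, hcb'⟩) ⟨_, Finset.mem_singleton_self _⟩
  refine hm_mono ?_ h
  rintro p - ⟨hp, hpm⟩
  have : Fact p.Prime := ⟨hp⟩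
  rw [Finset.mem_singleton] at hpm
  have hmod : p ≡ b [MOD m'] := hpm
  have hmod1 : p ≡ 1 [MOD m1] := (hmod.of_mul_right r0).trans hb1
  have hmodq : p ≡ 1 [MOD 8 * q] := hmod1.of_mul_right _
  have hp8 : p % 8 = 1 := (hmodq.of_mul_right q : p ≡ 1 [MOD 8])
  have hpq : (p : ZMod q) = 1 := by
    have : p ≡ 1 [MOD q] := hmodq.of_mul_left 8
    have := (ZMod.natCast_eq_natCast_iff _ _ _).2 this
    simpa using this
  have hA : (rho q hq h7).Φ.A p := by
    have : Fact q.Prime := ⟨hq⟩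
    rw [A_iff]
    refine ⟨hp, hp8, ?_, ?_⟩
    · rintro rfl; omega
    · have : -(q : ZMod p) = (-1) * q := by ring
      rw [this]
      refine IsSquare.mul ?_ ?_
      · rw [ZMod.exists_sq_eq_neg_one_iff]; omega
      · rw [ZMod.exists_sq_eq_prime_iff_of_mod_four_eq_one (by omega) hq2, hpq]
        exact IsSquare.one
  refine ⟨hA, ?_⟩
  rw [← Finset.add_sum_erase e _ hr0]
  have h0 : ∑ r ∈ e.erase r0, Pool.Agent.Y703.CQ.nr p r = 0 := by
    refine Finset.sum_eq_zero fun r hr => ?_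
    obtain ⟨g1, g2, g3⟩ := he r (Finset.mem_of_mem_erase hr)
    have : Fact r.Prime := ⟨g1⟩
    unfold Pool.Agent.Y703.CQ.nr
    rw [if_pos]
    rw [ZMod.exists_sq_eq_prime_iff_of_mod_four_eq_one (by omega) g2]
    have : p ≡ 1 [MOD r] := by
      refine hmod1.of_dvd ?_
      exact (Finset.dvd_prod_of_mem (fun r => r) hr).trans (Dvd.intro_left _ rfl)
    have := (ZMod.natCast_eq_natCast_iff _ _ _).2 this
    rw [this, Nat.cast_one]
    exact IsSquare.one
  rw [h0, add_zero]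
  unfold Pool.Agent.Y703.CQ.nr
  rw [if_neg]
  · exact one_ne_zero
  · rw [ZMod.exists_sq_eq_prime_iff_of_mod_four_eq_one (by omega) h20]
    have : p ≡ b [MOD r0] := hmod.of_mul_left m1
    rw [(ZMod.natCast_eq_natCast_iff _ _ _).2 this, hbn]
    exact hn

/-! ### The corank -/

theorem nr_eq (p a : ℕ) : nr p a = Pool.Agent.Y703.CQ.nr p a := by
  unfold nr Pool.Agent.Y703.CQ.nr
  rfl

theorem nr_self (p : ℕ) : nr p p = 0 := by
  unfold nr
  rw [if_pos]
  rw [ZMod.natCast_self]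
  exact ⟨0, by simp⟩

/-- the numbers of the twists -/
def Good (q D : ℕ) : Prop := ∀ p : ℕ, p.Prime → p ∣ D →
  (p % 8 = 1 ∨ (p % 8 = 5 ∧ ¬ IsSquare (-(q : ZMod p)))) ∧ p ≠ q

section
variable {q : ℕ} (hq : q.Prime) (h7 : q % 8 = 7) {D : ℕ} (hD : Good q D)
include hD

theorem SP_iff (p : ℕ) : p ∈ SP q D ↔ p ∈ D.primeFactors ∧ (rho q hq h7).Φ.A p := by
  unfold SP
  rw [Finset.mem_filter]
  refine and_congr_right fun hp => ?_
  have hpp := Nat.prime_of_mem_primeFactors hp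
  have hpd := Nat.dvd_of_mem_primeFactors hp
  rw [A_iff]
  obtain ⟨h1, h2⟩ := hD p hpp hpd
  constructor
  · intro h
    rcases h1 with h1 | h1
    · exact ⟨hpp, h1, h2, h⟩
    · exact absurd h h1.2
  · intro h
    exact h.2.2.2

/-- a row of the system -/
theorem rowA (x : ℕ → ZMod 2) (hx : ∀ p, ¬ (p ∈ D.primeFactors ∧ (rho q hq h7).Φ.A p) → x p = 0)
    (i : SP q D) :
    (R q D).mulVec (fun j => x j) i =
      ∑ r ∈ D.primeFactors, Pool.Agent.Y703.CQ.nr i r * (x r + x i) + n4 q i * x i := by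
  have hi := (SP_iff hq h7 hD i).1 i.2
  have e1 : ∑ r ∈ D.primeFactors, Pool.Agent.Y703.CQ.nr i r * (x r + x i) =
      ∑ r ∈ SP q D, nr i r * x r + (∑ r ∈ D.primeFactors, nr i r) * x i := by
    have hsub : SP q D ⊆ D.primeFactors := Finset.filter_subset _ _
    have : ∑ r ∈ SP q D, nr i r * x r = ∑ r ∈ D.primeFactors, nr i r * x r := by
      refine Finset.sum_subset hsub fun r hr hr' => ?_
      rw [hx r (fun h => hr' ((SP_iff hq h7 hD r).2 h)), mul_zero]
    rw [this, Finset.sum_mul, ← Finset.sum_add_distrib]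
    refine Finset.sum_congr rfl fun r _ => ?_
    rw [← nr_eq]
    ring
  have e2 : ∑ r ∈ SP q D, nr i r * x r = ∑ j : SP q D, nr i j * x j :=
    (Finset.sum_coe_sort (SP q D) (fun r => nr i r * x r)).symm
  have e5 : ∑ r ∈ D.primeFactors, nr i r = ∑ r ∈ D.primeFactors.erase i, nr i r := by
    rw [← Finset.add_sum_erase D.primeFactors (fun r => nr i r) hi.1, nr_self, zero_add]
  rw [e1, e2, e5]
  unfold Matrix.mulVec dotProduct
  rw [← Finset.add_sum_erase univ _ (Finset.mem_univ i),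
    ← Finset.add_sum_erase univ (fun j : SP q D => nr i j * x j) (Finset.mem_univ i), nr_self,
    zero_mul, zero_add]
  have e3 : ∑ j ∈ univ.erase i, R q D i j * x j =
      ∑ j ∈ univ.erase i, nr i j * x j := by
    refine Finset.sum_congr rfl fun j hj => ?_
    have hne : i ≠ j := fun h => (Finset.mem_erase.1 hj).1 h.symm
    congr 1
    unfold R
    rw [Matrix.of_apply, if_neg hne]
  rw [e3]
  have e4 : R q D i i = ∑ r ∈ D.primeFactors.erase i, nr i r + n4 q i := by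
    unfold R
    rw [Matrix.of_apply, if_pos rfl]
  show R q D i i * x i + _ = _
  rw [e4]
  ring

omit hD in
/-- restriction to the split primes -/
noncomputable def res (q D : ℕ) : (ℕ → ZMod 2) →ₗ[ZMod 2] (SP q D → ZMod 2) :=
  LinearMap.funLeft (ZMod 2) (ZMod 2) (fun j : SP q D => (j : ℕ))

omit hD in
theorem res_apply (x : ℕ → ZMod 2) (j : SP q D) : res q D x j = x j := rfl

/-- the kernel of the matrix -/
theorem ker_eq : (Kr (rho q hq h7).Φ (n4 q) D.primeFactors).map (res q D) =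
    LinearMap.ker (R q D).mulVecLin := by
  ext v
  rw [Submodule.mem_map, LinearMap.mem_ker, Matrix.mulVecLin_apply]
  constructor
  · rintro ⟨x, hx, rfl⟩
    obtain ⟨h1, h2⟩ := mem_Kr.1 hx
    funext i
    have hi := (SP_iff hq h7 hD i).1 i.2
    exact (rowA hq h7 hD x h1 i).trans (h2 i hi.1 hi.2)
  · intro hv
    set x : ℕ → ZMod 2 := fun p => if h : p ∈ SP q D then v ⟨p, h⟩ else 0 with hx
    have e : res q D x = v := by
      funext j
      rw [res_apply, hx]
      simp only [j.2, dite_true]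
    have h0 : ∀ p, ¬ (p ∈ D.primeFactors ∧ (rho q hq h7).Φ.A p) → x p = 0 := by
      intro p hp
      rw [hx]
      exact dif_neg fun h => hp ((SP_iff hq h7 hD p).1 h)
    refine ⟨x, mem_Kr.2 ⟨h0, fun p hp ha => ?_⟩, e⟩
    have hpP : p ∈ SP q D := (SP_iff hq h7 hD p).2 ⟨hp, ha⟩
    have h1 := rowA hq h7 hD x h0 ⟨p, hpP⟩
    rw [← e] at hv
    have h2 := congrFun hv ⟨p, hpP⟩
    exact h1.symm.trans h2

theorem res_inj {x : ℕ → ZMod 2} (hx : x ∈ Kr (rho q hq h7).Φ (n4 q) D.primeFactors)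
    (h : res q D x = 0) : x = 0 := by
  obtain ⟨h1, -⟩ := mem_Kr.1 hx
  funext p
  by_cases hp : p ∈ D.primeFactors ∧ (rho q hq h7).Φ.A p
  · exact congrFun h ⟨p, (SP_iff hq h7 hD p).2 hp⟩
  · exact h1 p hp

/-- the corank is the dimension of the kernel of the matrix -/
theorem corank_eq : corank q D = rk (rho q hq h7).Φ (n4 q) D.primeFactors := by
  unfold corank rk
  rw [← ker_eq hq h7 hD]
  have hinj : Function.Injective ((res q D).domRestrict
      (Kr (rho q hq h7).Φ (n4 q) D.primeFactors)) := by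
    rw [← LinearMap.ker_eq_bot, Submodule.eq_bot_iff]
    rintro ⟨x, hx⟩ h
    rw [LinearMap.mem_ker] at h
    exact Subtype.ext (res_inj hq h7 hD hx h)
  have h2 : LinearMap.range ((res q D).domRestrict (Kr (rho q hq h7).Φ (n4 q) D.primeFactors)) =
      (Kr (rho q hq h7).Φ (n4 q) D.primeFactors).map (res q D) := by
    rw [LinearMap.range_domRestrict]
  rw [← h2]
  exact (LinearEquiv.ofInjective _ hinj).finrank_eq.symm

end

/-! ### The twists -/

theorem tw_eq {m D : ℕ} (hm : Squarefree m) (hD : Squarefree D) :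
    tw m D = ∏ p ∈ symmDiff D.primeFactors m.primeFactors, p := by
  have hg : Nat.gcd m D = ∏ p ∈ m.primeFactors ∩ D.primeFactors, p := by
    rw [← Nat.primeFactors_gcd hm.ne_zero hD.ne_zero]
    exact (Nat.prod_primeFactors_of_squarefree
      (hm.squarefree_of_dvd (Nat.gcd_dvd_left m D))).symm
  have h1 : m = (∏ p ∈ m.primeFactors \ D.primeFactors, p) *
      ∏ p ∈ m.primeFactors ∩ D.primeFactors, p := by
    conv_lhs => rw [← Nat.prod_primeFactors_of_squarefree hm]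
    rw [← Finset.prod_sdiff (Finset.inter_subset_left : m.primeFactors ∩ D.primeFactors ⊆
      m.primeFactors), Finset.sdiff_inter_self_left]
  have h2 : D = (∏ p ∈ D.primeFactors \ m.primeFactors, p) *
      ∏ p ∈ m.primeFactors ∩ D.primeFactors, p := by
    conv_lhs => rw [← Nat.prod_primeFactors_of_squarefree hD]
    rw [← Finset.prod_sdiff (Finset.inter_subset_right : m.primeFactors ∩ D.primeFactors ⊆
      D.primeFactors), Finset.sdiff_inter_self_right]
  have h3 : ∏ p ∈ symmDiff D.primeFactors m.primeFactors, p =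
      (∏ p ∈ D.primeFactors \ m.primeFactors, p) * ∏ p ∈ m.primeFactors \ D.primeFactors, p := by
    rw [symmDiff_def]
    exact Finset.prod_union disjoint_sdiff_sdiff
  have hpos : 0 < Nat.gcd m D := Nat.gcd_pos_of_pos_left _ (Nat.pos_of_ne_zero hm.ne_zero)
  unfold tw
  rw [h3]
  refine Nat.div_eq_of_eq_mul_left (by positivity) ?_
  rw [hg]
  refine (congrArg₂ (· * ·) h1 h2).trans ?_
  ring

theorem tw_pf {m D : ℕ} (hm : Squarefree m) (hD : Squarefree D) :
    (tw m D).primeFactors = symmDiff D.primeFactors m.primeFactors := by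
  rw [tw_eq hm hD]
  refine Nat.primeFactors_prod fun p hp => ?_
  rcases Finset.mem_symmDiff.1 hp with h | h
  · exact Nat.prime_of_mem_primeFactors h.1
  · exact Nat.prime_of_mem_primeFactors h.1

theorem tw_good {q m D : ℕ} (hm : Clm q m) (hD : Cl8 q D) : Good q (tw m D) := by
  intro p hp hd
  have h0 : tw m D ≠ 0 := by
    rw [tw_eq hm.1 hD.1]
    refine Finset.prod_ne_zero_iff.2 fun p hp => ?_
    rcases Finset.mem_symmDiff.1 hp with h | h
    · exact (Nat.prime_of_mem_primeFactors h.1).ne_zero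
    · exact (Nat.prime_of_mem_primeFactors h.1).ne_zero
  have h1 : p ∈ (tw m D).primeFactors := Nat.mem_primeFactors.2 ⟨hp, hd, h0⟩
  rw [tw_pf hm.1 hD.1] at h1
  rcases Finset.mem_symmDiff.1 h1 with h | h
  · obtain ⟨g1, g2⟩ := hD.2 p hp (Nat.dvd_of_mem_primeFactors h.1)
    exact ⟨Or.inl g1, g2⟩
  · exact hm.2 p hp (Nat.dvd_of_mem_primeFactors h.1)

theorem cardf {P Q : ℕ → Prop} {iP : DecidablePred P} {iQ : DecidablePred Q} (h : ∀ p, P p ↔ Q p)
    (s : Finset ℕ) : (s.filter P).card = (s.filter Q).card := by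
  congr 1
  ext p
  rw [mem_filter, mem_filter, h]

/-- proportions of equivalent properties -/
theorem ratio {P Q P' Q' : ℕ → Prop} {iP : DecidablePred P} {iQ : DecidablePred Q}
    {iP' : DecidablePred P'} {iQ' : DecidablePred Q'} (h : ∀ p, P p ↔ P' p) (h' : ∀ p, Q p ↔ Q' p)
    (s : Finset ℕ) : ((s.filter P).card : ℝ) / ((s.filter Q).card : ℝ) =
      ((s.filter P').card : ℝ) / ((s.filter Q').card : ℝ) := by
  rw [cardf h, cardf h']

/-- **BKC-21** -/
theorem t_LAW : Pool.Agent.Q274.BKC.S_LAW := by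
  intro q hq h7 M m r hinj hm
  set U : Fin M → Finset ℕ := fun k => (m k).primeFactors with hU
  have hUp : ∀ k, ∀ u ∈ U k, u.Prime ∧ u ≠ 2 ∧ u ≠ q := by
    intro k u hu
    have hp := Nat.prime_of_mem_primeFactors hu
    obtain ⟨g1, g2⟩ := (hm k).2 u hp (Nat.dvd_of_mem_primeFactors hu)
    refine ⟨hp, ?_, g2⟩
    rintro rfl
    rcases g1 with g1 | g1
    · norm_num at g1
    · have := g1.1
      norm_num at this
  have hW : OkU (univ.biUnion U) U := by
    refine ⟨fun u hu => ?_, fun k => Finset.subset_biUnion_of_mem U (Finset.mem_univ k)⟩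
    obtain ⟨k, -, hk⟩ := Finset.mem_biUnion.1 hu
    exact ⟨(hUp k u hk).1, (hUp k u hk).2.1⟩
  have hHM : ∀ k l, k ≠ l → HM fun p => (rho q hq h7).Φ.A p ∧ sep (fun _ => n4 q) U k l p ≠ 0 := by
    intro k l hkl
    have he : ∀ r ∈ symmDiff (U k) (U l), r.Prime ∧ r ≠ 2 ∧ r ≠ q := by
      intro r hr
      rcases Finset.mem_symmDiff.1 hr with h | h
      · exact hUp k r h.1
      · exact hUp l r h.1
    have e : (fun p => (rho q hq h7).Φ.A p ∧ sep (fun _ => n4 q) U k l p ≠ 0) =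
        fun p => (rho q hq h7).Φ.A p ∧
          ∑ r ∈ symmDiff (U k) (U l), Pool.Agent.Y703.CQ.nr p r ≠ 0 := by
      funext p
      unfold sep
      rw [add_assoc, CharTwo.add_self_eq_zero, add_zero]
    rw [e]
    refine hm_sep hq h7 ?_ he
    rw [Finset.nonempty_iff_ne_empty]
    intro h0
    have h1 : symmDiff (U k) (U l) = ⊥ := h0
    rw [symmDiff_eq_bot] at h1
    apply hkl
    apply hinj
    rw [← Nat.prod_primeFactors_of_squarefree (hm k).1,
      ← Nat.prod_primeFactors_of_squarefree (hm l).1]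
    exact congrArg (fun S : Finset ℕ => ∏ p ∈ S, p) h1
  have h := t_DEN (rho q hq h7).ok r (fun _ => n4 q) (univ.biUnion U) U hW hHM
  have hc : ∀ D : ℕ, (Squarefree D ∧ ∀ p ∈ D.primeFactors, (rho q hq h7).Φ.P p) ↔ Cl8 q D := by
    intro D
    unfold Cl8
    refine and_congr_right fun hD => ?_
    constructor
    · intro g p hp hd
      exact ((P_iff hq h7 p).1 (g p (Nat.mem_primeFactors.2 ⟨hp, hd, hD.ne_zero⟩))).2
    · intro g p hp
      exact (P_iff hq h7 p).2 ⟨Nat.prime_of_mem_primeFactors hp,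
        g p (Nat.prime_of_mem_primeFactors hp) (Nat.dvd_of_mem_primeFactors hp)⟩
  refine h.congr fun X => ratio (fun D => ?_) (fun D => hc D) _
  rw [← and_assoc, hc]
  refine and_congr_right fun hD => ?_
  unfold GdR
  refine forall_congr' fun j => ?_
  rw [corank_eq hq h7 (tw_good (hm j) hD), tw_pf (hm j).1 hD.1]

end Pool.Agent.Q225.BKC
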